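import Pool.Agent.Helper98.EY.StmtsC
import Pool.Agent.Helper24.EY.ENV2

/-!
# MP_157eb8_pr: all environment conditions with high probability, part 2 (module ENV4)
-/

set_option autoImplicit false

namespace Pool.Agent.Helper98.EX

open Finset MeasureTheory ProbabilityTheory Filter
open scoped Topology

theorem env4_asym : ∃ N0 : ℕ, ∀ N : ℕ, N0 ≤ N → 3 * Real.log N ^ 2 ≤ Real.log N ^ 715 ∧
    Real.log N ^ 715 + 1 + 3 * Real.log N ^ 2 ≤ N := by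
  have h1 : ∀ᶠ x : ℝ in atTop, Real.log x ^ 716 ≤ x := by
    have h := (Real.isLittleO_pow_log_id_atTop (n := 716)).bound one_pos
    filter_upwards [h, eventually_ge_atTop (1 : ℝ)] with x hx hx1
    rw [one_mul, id, Real.norm_of_nonneg (by linarith : (0 : ℝ) ≤ x)] at hx
    exact le_trans (le_abs_self _) hx
  have h2 : ∀ᶠ x : ℝ in atTop, 5 ≤ Real.log x :=
    Real.tendsto_log_atTop.eventually_ge_atTop 5
  have h3 : ∀ᶠ N : ℕ in atTop, Real.log (N : ℝ) ^ 716 ≤ N ∧ 5 ≤ Real.log (N : ℝ) :=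
    tendsto_natCast_atTop_atTop.eventually (h1.and h2)
  obtain ⟨N0, hN0⟩ := eventually_atTop.mp h3
  refine ⟨N0, fun N hN => ?_⟩
  obtain ⟨h4, h5⟩ := hN0 N hN
  obtain ⟨L, hL⟩ : ∃ L : ℝ, L = Real.log (N : ℝ) := ⟨_, rfl⟩
  rw [← hL] at h4 h5 ⊢
  have hL1 : (1 : ℝ) ≤ L := by linarith
  have e1 : L ^ 715 = L ^ 2 * L ^ 713 := by rw [← pow_add]
  have e2 : L ^ 716 = L * L ^ 715 := by rw [← pow_succ']
  have g1 : 5 ≤ L ^ 713 := le_trans h5 (le_self_pow₀ hL1 (by norm_num))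
  have g2 : 0 < L ^ 2 := by positivity
  have g3 : L ^ 2 * 3 ≤ L ^ 2 * L ^ 713 := mul_le_mul_of_nonneg_left (by linarith) g2.le
  have g4 : 1 ≤ L ^ 715 := one_le_pow₀ hL1
  have g5 : 5 * L ^ 715 ≤ L * L ^ 715 := mul_le_mul_of_nonneg_right h5 (by linarith)
  constructor
  · rw [e1]
    linarith
  · rw [e1] at g4 g5 ⊢
    rw [e2, e1] at h4
    linarith

theorem env4_union {Ω : Type} [MeasurableSpace Ω] (P : Measure Ω)
    (A1 A2 A3 A4 A5 A6 A7 A8 A9 A10 A11 A12 A13 A14 A15 A16 A17 A18 S : Set Ω) (q : ℝ)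
    (h1 : P A1 ≤ ENNReal.ofReal q)
    (h2 : P A2 ≤ ENNReal.ofReal q)
    (h3 : P A3 ≤ ENNReal.ofReal q)
    (h4 : P A4 ≤ ENNReal.ofReal q)
    (h5 : P A5 ≤ ENNReal.ofReal q)
    (h6 : P A6 ≤ ENNReal.ofReal q)
    (h7 : P A7 ≤ ENNReal.ofReal q)
    (h8 : P A8 ≤ ENNReal.ofReal q)
    (h9 : P A9 ≤ ENNReal.ofReal q)
    (h10 : P A10 ≤ ENNReal.ofReal q)
    (h11 : P A11 ≤ ENNReal.ofReal q)
    (h12 : P A12 ≤ ENNReal.ofReal q)
    (h13 : P A13 ≤ ENNReal.ofReal q)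
    (h14 : P A14 ≤ ENNReal.ofReal q)
    (h15 : P A15 ≤ ENNReal.ofReal q)
    (h16 : P A16 ≤ ENNReal.ofReal q)
    (h17 : P A17 ≤ ENNReal.ofReal q)
    (h18 : P A18 ≤ ENNReal.ofReal q)
    (hS : ∀ ω, ω ∉ A1 → ω ∉ A2 → ω ∉ A3 → ω ∉ A4 → ω ∉ A5 → ω ∉ A6 → ω ∉ A7 → ω ∉ A8 → ω ∉ A9 → ω ∉ A10 → ω ∉ A11 → ω ∉ A12 → ω ∉ A13 → ω ∉ A14 → ω ∉ A15 → ω ∉ A16 → ω ∉ A17 → ω ∉ A18 → ω ∉ S) :
    P S ≤ ENNReal.ofReal (18 * q) := by
  have hsub : S ⊆ A1 ∪ (A2 ∪ (A3 ∪ (A4 ∪ (A5 ∪ (A6 ∪ (A7 ∪ (A8 ∪ (A9 ∪ (A10 ∪ (A11 ∪ (A12 ∪ (A13 ∪ (A14 ∪ (A15 ∪ (A16 ∪ (A17 ∪ (A18))))))))))))))))) := by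
    intro ω hω
    by_contra hcon
    simp only [Set.mem_union, not_or] at hcon
    obtain ⟨b1, b2, b3, b4, b5, b6, b7, b8, b9, b10, b11, b12, b13, b14, b15, b16, b17, b18⟩ := hcon
    exact hS ω b1 b2 b3 b4 b5 b6 b7 b8 b9 b10 b11 b12 b13 b14 b15 b16 b17 b18 hω
  have e : ENNReal.ofReal (18 * q) = 18 * ENNReal.ofReal q := by
    rw [ENNReal.ofReal_mul (by norm_num)]
    norm_num
  have e' : (18 : ENNReal) * ENNReal.ofReal q = ENNReal.ofReal q + (ENNReal.ofReal q + (ENNReal.ofReal q + (ENNReal.ofReal q + (ENNReal.ofReal q + (ENNReal.ofReal q + (ENNReal.ofReal q + (ENNReal.ofReal q + (ENNReal.ofReal q + (ENNReal.ofReal q + (ENNReal.ofReal q + (ENNReal.ofReal q + (ENNReal.ofReal q + (ENNReal.ofReal q + (ENNReal.ofReal q + (ENNReal.ofReal q + (ENNReal.ofReal q + (ENNReal.ofReal q))))))))))))))))) := by ring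
  rw [e, e']
  refine (measure_mono hsub).trans ?_
  refine (measure_union_le _ _).trans (add_le_add h1 ?_)
  refine (measure_union_le _ _).trans (add_le_add h2 ?_)
  refine (measure_union_le _ _).trans (add_le_add h3 ?_)
  refine (measure_union_le _ _).trans (add_le_add h4 ?_)
  refine (measure_union_le _ _).trans (add_le_add h5 ?_)
  refine (measure_union_le _ _).trans (add_le_add h6 ?_)
  refine (measure_union_le _ _).trans (add_le_add h7 ?_)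
  refine (measure_union_le _ _).trans (add_le_add h8 ?_)
  refine (measure_union_le _ _).trans (add_le_add h9 ?_)
  refine (measure_union_le _ _).trans (add_le_add h10 ?_)
  refine (measure_union_le _ _).trans (add_le_add h11 ?_)
  refine (measure_union_le _ _).trans (add_le_add h12 ?_)
  refine (measure_union_le _ _).trans (add_le_add h13 ?_)
  refine (measure_union_le _ _).trans (add_le_add h14 ?_)
  refine (measure_union_le _ _).trans (add_le_add h15 ?_)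
  refine (measure_union_le _ _).trans (add_le_add h16 ?_)
  exact (measure_union_le _ _).trans (add_le_add h17 h18)

theorem st_ENV4 (hJ : ST_JEN) (hF : ST_EVFAR) (hS : ST_EVSUM) (hNr : ST_EVNEAR) (hM : ST_EVMAX)
    (hPair : ST_EVPAIR) (hShal : ST_EVSHAL) (hSm : ST_EVSM) (hCap : ST_EXCAP)
    (hCapm : ST_CAPM) (hTri : ST_EVTRI) (hSlow : ST_EVSLOW) (hEnd : ST_EVEND) (hNS : ST_EVNS)
    (hExb : ST_EXB) (hBarr : ST_BARR) : ST_ENV4 := by
  intro Ω _ P X hI hms c ηp e0 γ hc hηp he0 hγ hγ1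
  obtain ⟨θ, hθ0, hθ1, hm1, hmsθ⟩ := hJ Ω P X 1 hI le_rfl hms
  obtain ⟨ηq, hηq'⟩ : ∃ ηq : ℝ, ηq = ηp / 18 := ⟨_, rfl⟩
  have hηq : 0 < ηq := by rw [hηq']; positivity
  obtain ⟨N1, hFar⟩ := hF Ω P X θ hI hθ0 hθ1 hm1 ηq hηq
  obtain ⟨C1a, ηm, hC1a, hηm, hSum⟩ := hS Ω P X θ hI hθ0 hθ1 hm1 ηq hηq
  obtain ⟨Csa, c1, m0, hCsa, hc1, hc1', hNear⟩ := hNr Ω P X θ hI hθ0 hθ1 hm1 ηq e0 hηq he0
  obtain ⟨c2a, hc2a, hc2a', hEx⟩ := hCap Ω P X θ hI hθ0 hθ1 hm1 ηq hηq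
  obtain ⟨N2, hNear'⟩ := hNear γ hγ
  obtain ⟨N3, hEx'⟩ := hEx γ hγ
  obtain ⟨N4, hMax⟩ := hM Ω P X 1 θ hI le_rfl hθ0 hθ1 hmsθ ηq γ hηq hγ
  obtain ⟨N6, hPair'⟩ := hPair Ω P X θ hI hθ0 hθ1 hm1 ηq hηq
  obtain ⟨N7, hShal'⟩ := hShal Ω P X θ hI hθ0 hθ1 hm1 ηq hηq
  obtain ⟨⟨C1b, N8, hC1b, hSmA⟩, ⟨N9, hSmB⟩, ⟨N10, hSmC⟩⟩ := hSm Ω P X θ hI hθ0 hθ1 hm1 ηq hηq
  obtain ⟨N11, hCapm'⟩ := hCapm
  obtain ⟨N12, hTri'⟩ := hTri Ω P X θ hI hθ0 hθ1 hm1 ηq hηq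
  obtain ⟨N13, hSlow'⟩ := hSlow Ω P X θ hI hθ0 hθ1 hm1 c ηq hc hηq
  obtain ⟨N14, hEnd'⟩ := hEnd Ω P X θ hI hθ0 hθ1 hm1 ηq hηq
  obtain ⟨Csb, N15, hCsb, hNS'⟩ := hNS Ω P X θ hI hθ0 hθ1 hm1 ηq γ hηq hγ
  obtain ⟨c2b, hc2b, hc2b', N16, hExb'⟩ := hExb Ω P X θ hI hθ0 hθ1 hm1 ηq hηq
  obtain ⟨N17, hBarr'⟩ := hBarr (max C1a C1b)
  obtain ⟨N18, hA2⟩ := env4_asym
  obtain ⟨c2, hc2d⟩ : ∃ c2 : ℝ, c2 = min c2a c2b := ⟨_, rfl⟩
  have hc2 : 0 < c2 := by
    rw [hc2d]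
    exact lt_min hc2a hc2b
  have hc2' : c2 < 1 / 4 := by
    rw [hc2d]
    exact lt_of_le_of_lt (min_le_left _ _) hc2a'
  have hc2la : c2 ≤ c2a := by rw [hc2d]; exact min_le_left _ _
  have hc2lb : c2 ≤ c2b := by rw [hc2d]; exact min_le_right _ _
  obtain ⟨κ, hκd⟩ : ∃ κ : ℝ, κ = 15 / Real.log (1 / θ) := ⟨_, rfl⟩
  have hκ : 0 < κ := by
    rw [hκd]
    refine div_pos (by norm_num) (Real.log_pos ?_)
    rw [lt_div_iff₀ hθ0]
    linarith
  obtain ⟨N5, hAs⟩ := env2_asym κ γ c m0 hκ hγ hc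
  obtain ⟨η0, hη0d⟩ : ∃ η0 : ℝ, η0 = min ηm (min 1 (γ / (2 * (κ + 1)))) := ⟨_, rfl⟩
  have hη0 : 0 < η0 := by
    rw [hη0d]
    exact lt_min hηm (lt_min one_pos (by positivity))
  have hη0m : η0 ≤ ηm := by rw [hη0d]; exact min_le_left _ _
  have hη01 : η0 ≤ 1 := by rw [hη0d]; exact le_trans (min_le_right _ _) (min_le_left _ _)
  have hη0γ : η0 * (κ + 1) ≤ γ / 2 := by
    have : η0 ≤ γ / (2 * (κ + 1)) := by
      rw [hη0d]
      exact le_trans (min_le_right _ _) (min_le_right _ _)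
    calc η0 * (κ + 1) ≤ γ / (2 * (κ + 1)) * (κ + 1) :=
          mul_le_mul_of_nonneg_right this (by positivity)
      _ = γ / 2 := by field_simp
  refine ⟨η0, max Csa Csb, max C1a C1b, c1, c2, m0, hη0, hη01, le_trans hCsa (le_max_left _ _),
    le_trans hC1a (le_max_left _ _), hc1, hc1', hc2, hc2', N1 + N2 + N3 + N4 + N5 + N6 + N7 + N8 +
      N9 + N10 + N11 + N12 + N13 + N14 + N15 + N16 + N17 + N18, ?_⟩
  intro N k hN hk1 hk2
  obtain ⟨a1', a2, a3, a4, a5⟩ := hAs N (by omega)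
  have a1 : 1 ≤ N := by omega
  have hN1 : (1 : ℝ) ≤ N := by exact_mod_cast a1
  have hN0 : (0 : ℝ) < N := by linarith
  have hm0 : (0 : ℝ) ≤ m0 := Nat.cast_nonneg _
  have hL : 1 ≤ Real.log N := by linarith
  obtain ⟨w, hwd⟩ : ∃ w : ℕ, w = ⌈κ * Real.log N⌉₊ + m0 + 1 := ⟨_, rfl⟩
  have hwc : (w : ℝ) = (⌈κ * Real.log N⌉₊ : ℝ) + m0 + 1 := by
    rw [hwd]
    push_cast
    rfl
  have hw1 : κ * Real.log N ≤ w := by
    have := Nat.le_ceil (κ * Real.log N)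
    linarith
  have hw2 : (w : ℝ) + 1 ≤ κ * Real.log N + m0 + 3 := by
    have := Nat.ceil_lt_add_one (a := κ * Real.log N) (by positivity)
    linarith
  have hwlog : (w : ℝ) ≤ Real.log N ^ 2 := by linarith
  have hm0w : m0 ≤ w := by omega
  have hw0 : 1 ≤ w := by omega
  have hpow : (1 + η0) ^ (w + 1) ≤ (N : ℝ) ^ (γ / 2) := by
    calc (1 + η0) ^ (w + 1) ≤ (Real.exp η0) ^ (w + 1) := by
          refine pow_le_pow_left₀ (by linarith) ?_ _
          have := Real.add_one_le_exp η0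
          linarith
      _ = Real.exp (((w + 1 : ℕ) : ℝ) * η0) := (Real.exp_nat_mul η0 (w + 1)).symm
      _ ≤ Real.exp (Real.log N * (γ / 2)) := by
          refine Real.exp_le_exp.mpr ?_
          push_cast
          have h1 : (w : ℝ) + 1 ≤ (κ + 1) * Real.log N := by linarith
          calc ((w : ℝ) + 1) * η0 ≤ (κ + 1) * Real.log N * η0 :=
                mul_le_mul_of_nonneg_right h1 hη0.le
            _ = Real.log N * (η0 * (κ + 1)) := by ring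
            _ ≤ _ := mul_le_mul_of_nonneg_left hη0γ (by linarith)
      _ = (N : ℝ) ^ (γ / 2) := by rw [Real.rpow_def_of_pos hN0]
  have hkN : k ≤ N := by
    have : (k : ℝ) ≤ N := by nlinarith
    exact_mod_cast this
  have hk0 : 1 ≤ k := by
    have : (0 : ℝ) < k := lt_of_lt_of_le (by positivity) hk1
    exact_mod_cast this
  have h6w : 6 * w ≤ N - k := by
    have : (6 * w + k : ℝ) ≤ N := by nlinarith
    have h' : 6 * w + k ≤ N := by exact_mod_cast this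
    omega
  have h6w' : N - k + 6 * w ≤ N := by
    have : (6 * w : ℝ) ≤ k := by linarith
    have h' : 6 * w ≤ k := by exact_mod_cast this
    omega
  have htiny : (1 + η0) ^ (w + 1) ≤ (N : ℝ) := by
    refine le_trans hpow ?_
    calc (N : ℝ) ^ (γ / 2) ≤ (N : ℝ) ^ (1 : ℝ) :=
          Real.rpow_le_rpow_of_exponent_le hN1 (by linarith)
      _ = N := Real.rpow_one _
  have hwη : (w : ℝ) * (1 + η0) ^ w ≤ (N : ℝ) ^ γ := by
    calc (w : ℝ) * (1 + η0) ^ w ≤ (N : ℝ) ^ (γ / 2) * (N : ℝ) ^ (γ / 2) := by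
          refine mul_le_mul (le_trans hwlog a4) ?_ (by positivity) (by positivity)
          refine le_trans ?_ hpow
          exact pow_le_pow_right₀ (by linarith) (by omega)
      _ = (N : ℝ) ^ γ := by
          rw [← Real.rpow_add hN0]
          congr 1
          ring
  have hw8 : (w : ℝ) ≤ Real.log N ^ 8 :=
    le_trans hwlog (pow_le_pow_right₀ hL (by norm_num))
  obtain ⟨a6, a7⟩ := hA2 N (by omega)
  obtain ⟨x0, hx0⟩ : ∃ x0 : ℕ, x0 = ⌈Real.log N ^ 715⌉₊ := ⟨_, rfl⟩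
  have hx1 : Real.log N ^ 715 ≤ x0 := by
    rw [hx0]
    exact Nat.le_ceil _
  have hx2 : (x0 : ℝ) ≤ Real.log N ^ 715 + 1 := by
    rw [hx0]
    exact (Nat.ceil_lt_add_one (by positivity)).le
  have hx3 : 3 * w ≤ x0 := by
    have : (3 * w : ℝ) ≤ x0 := by linarith
    exact_mod_cast this
  have hx4 : x0 + 3 * w ≤ N := by
    have : (x0 + 3 * w : ℝ) ≤ N := by linarith
    exact_mod_cast this
  have hfin : ENNReal.ofReal (18 * ηq) = ENNReal.ofReal ηp := by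
    congr 1
    rw [hηq']
    ring
  rw [← hfin, ← hx0]
  refine env4_union P _ _ _ _ _ _ _ _ _ _ _ _ _ _ _ _ _ _ _ ηq
    (hFar N w (by omega) (by rw [← hκd]; exact hw1))
    (hSum η0 N w hη0 hη0m a1) (hNear' N k w (by omega) hkN (by omega) (by omega) hwlog)
    (hMax N (by omega)) (hPair' N (by omega)) (hShal' N w (by omega) hw0 hwlog)
    (hSmA N (by omega)) (hSmB N 0 (by omega) (by omega)) (hSmB N (N - 1) (by omega) (by omega))
    (hSmB N (N - k) (by omega) (by omega)) (hSmC N (N - k) w (by omega) h6w h6w' hwlog)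
    (hEx' N (by omega)) (hTri' N (by omega)) (hSlow' N k (by omega) hk1 hk2) (hEnd' N (by omega))
    (hNS' N w x0 (by omega) hx3 hx4 hwlog)
    (hNS' N w (N - x0) (by omega) (by omega) (by omega) hwlog)
    (hExb' N w (by omega) hw0 hwlog) ?_
  intro ω b1 b2 b3 b4 b5 b6 b7 b8 b9 b10 b11 b12 b13 b14 b15 b16 b17 b18
  simp only [Set.mem_ofPred_eq, not_not] at b1 b2 b3 b5 b6 b7 b8 b9 b10 b11 b12
  rw [Set.mem_ofPred_eq, not_not] at b13 b14 b15 b16 b17 b18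
  rw [Set.mem_ofPred_eq] at b4
  rw [Set.mem_ofPred_eq, not_not]
  obtain ⟨f1, f2, f3⟩ := b1
  obtain ⟨g1, g2⟩ := b2
  obtain ⟨n1, n2, n3, n4, n5⟩ := b3
  obtain ⟨p1, p2, p3⟩ := b5
  obtain ⟨s1, s2⟩ := b7
  have hrp : ∀ x, 0 < rE (EE X ω) x := fun x => (hI.rng (x - 1) ω).1
  have hr1 : ∀ x, rE (EE X ω) x ≤ 1 := fun x => (hI.rng (x - 1) ω).2
  have hl0 : ∀ x, 0 ≤ lE (EE X ω) x := by
    intro x
    have := (hI.rng x ω).2
    simp only [lE, EE]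
    linarith
  have hadm : Adm N (rE (EE X ω)) (lE (EE X ω)) := by
    intro x _ _
    refine ⟨hrp x, hr1 x, hl0 x, ?_⟩
    have := (hI.rng x ω).1
    simp only [lE, EE]
    linarith
  obtain ⟨q1, q2, q3⟩ := hCapm' N (rE (EE X ω)) (lE (EE X ω)) (by omega) hadm f3 f2
  have hNm : (0 : ℝ) < (N : ℝ) ^ (-100 : ℝ) := Real.rpow_pos_of_pos hN0 _
  have hNm1 : (N : ℝ) ^ (-100 : ℝ) ≤ 1 := by
    rw [← Real.rpow_zero (N : ℝ)]
    exact Real.rpow_le_rpow_of_exponent_le hN1 (by norm_num)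
  have hmaxp : ∀ z y, z ≤ y → y < N →
      vp (rE (EE X ω)) (lE (EE X ω)) z y ≤ (N : ℝ) ^ (1 / 1 + γ) := by
    intro z y h1 h2
    by_contra hcon
    push Not at hcon
    apply b4
    refine ⟨z, y, h1, h2, Or.inl ?_⟩
    have h3 := hcon.le
    simp only [vp, rE, EE, Nat.add_sub_cancel] at h3 ⊢
    exact h3
  have hmaxh : ∀ z y, 1 ≤ z → z ≤ y → y < N →
      vh (rE (EE X ω)) (lE (EE X ω)) z y ≤ (N : ℝ) ^ (1 / 1 + γ) := by
    intro z y h0 h1 h2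
    by_contra hcon
    push Not at hcon
    apply b4
    refine ⟨z, y, h1, h2, Or.inr ⟨h0, ?_⟩⟩
    have h3 := hcon.le
    simp only [vh, rE, EE] at h3 ⊢
    exact h3
  have hL8 : 0 ≤ Real.log N ^ 8 := by positivity
  obtain ⟨as, has1, hl, hr, hq, halt⟩ := env2_det (rE (EE X ω)) (lE (EE X ω)) hrp hr1 hl0 N w η0 γ
    (1 / 1 + γ) a1 hw0 hη0 (by positivity) hwη hw8 hmaxp hmaxh (by
      intro y h1 h2
      refine le_trans (q2 0 y (by omega) h1).1 (b8.1 0 y (by omega) h1 ?_ ?_)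
      · push_cast
        linarith
      · have : (y : ℝ) ≤ w := by exact_mod_cast h2.le
        push_cast
        linarith) (by
      intro z h0 h1 h2
      refine le_trans (q3 z (N - 1) h0 h1 (by omega)).1 (b9.2 z (N - 1) h0 h1 (by omega) ?_ ?_)
      · have : ((N - 1 : ℕ) : ℝ) ≤ z + w := by exact_mod_cast h2.le
        linarith
      · linarith)
  have hGE : GE N (rE (EE X ω)) (mE N (EE X ω)) w (max C1a C1b) := by
    refine ⟨?_, ?_, ?_, f3, ?_, hw0, hwlog, p1, p2, p3, b6, ?_, ?_⟩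
    · intro x hx1 hx2
      obtain ⟨h1, h2, h3, h4⟩ := hadm x hx1 hx2
      exact ⟨h1, h2, le_trans h3 (le_max_left _ _), max_le h4 hNm1⟩
    · intro x
      exact ⟨hrp x, le_trans hNm.le (le_max_right _ _)⟩
    · intro x _ _
      exact le_max_right _ _
    · intro z x h1 h2
      refine le_trans (q1 z x (by omega) h2).2 ?_
      have := f1 z x h1 h2
      have h3 := env2_far a1'
      linarith
    · exact le_trans s1 (mul_le_mul_of_nonneg_right (le_max_right _ _) hN0.le)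
    · exact le_trans s2 (mul_le_mul_of_nonneg_right (le_max_right _ _) hN0.le)
  refine ⟨w, as, ⟨hadm, hkN, f3, f2, f1, htiny, hw0, hwlog, hm0w, by omega, by omega, has1, hl, hr,
    ?_, ?_, n1, n2, le_trans n3 (le_max_left _ _), n4, n5⟩, b11, ?_, ?_, ?_, ?_, ?_, ?_, ?_, ?_⟩
  · exact le_trans g1 (mul_le_mul_of_nonneg_right (le_max_left _ _) hN0.le)
  · exact le_trans g2 (mul_le_mul_of_nonneg_right (le_max_left _ _) hN0.le)
  · intro p hp
    rcases hp with rfl | rfl | rfl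
    · exact b8
    · exact b9
    · exact b10
  · refine le_trans hq (Real.rpow_le_rpow_of_exponent_le hN1 (by linarith))
  · intro κ' hκ' hb
    refine b12 κ' hκ' fun A B h1 h2 h3 h4 => hb A B ?_ h2 h3 ?_
    · exact le_trans (mul_le_mul_of_nonneg_right hc2la hN0.le) h1
    · exact le_trans h4 (mul_le_mul_of_nonneg_right (by linarith) hN0.le)
  · intro κ' hκ'
    refine le_trans (halt κ' hκ') (mul_le_mul_of_nonneg_right ?_ (by positivity))
    exact Real.rpow_le_rpow_of_exponent_le hN1 (by linarith)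
  · exact ⟨b16.near, b16.rlow, le_trans b16.zs (le_max_right _ _)⟩
  · exact ⟨b17.near, b17.rlow, le_trans b17.zs (le_max_right _ _)⟩
  · obtain ⟨t1, t2, t3⟩ := b14
    exact hBarr' N w k _ _ (by omega) hGE b13 t1 t2 t3 b15.1 b15.2
  · intro b h1 h2 h3
    obtain ⟨b', h4, h5, h6, h7⟩ := b18 b h1 h2 h3
    refine ⟨b', le_trans (mul_le_mul_of_nonneg_right hc2lb hN0.le) h4, le_trans h5 ?_, h6, h7⟩
    exact mul_le_mul_of_nonneg_right (by linarith) hN0.le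

end Pool.Agent.Helper98.EX
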